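import Pool.Agent.H14.AVR.Stmts2

/-!
# AVR / MWL: the group of points is finitely generated if `G / 2G` is finite
-/

set_option autoImplicit false

namespace Pool.AVR

open Polynomial Matrix

open Classical in
theorem mwl_general {K : Type} [Field K] [Height.AdmissibleAbsValues K]
    [Northcott (Height.mulHeight₁ (K := K))] (W : WeierstrassCurve K)
    (hpll : ∃ C : ℝ, ∀ P Q : W.toAffine.Point,
      |Height.logHeight (P + Q).xRep + Height.logHeight (P - Q).xRep -
        2 * (Height.logHeight P.xRep + Height.logHeight Q.xRep)| ≤ C)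
    (hfin : Finite (Mod2 W.toAffine.Point)) : AddGroup.FG W.toAffine.Point := by
  obtain ⟨C, hC⟩ := hpll
  have hN : Northcott (fun P : W.toAffine.Point => Height.logHeight P.xRep) := by
    refine ⟨fun B => ?_⟩
    have h1 : {x : K | Height.logHeight₁ x ≤ B}.Finite := Northcott.finite_le B
    have h2 : ((fun x : K => (![x, 1] : Fin 2 → K)) '' {x : K | Height.logHeight₁ x ≤ B} ∪
        {![1, 0]}).Finite := (h1.image _).union (Set.finite_singleton _)
    refine Set.Finite.of_finite_fibers (f := fun P : W.toAffine.Point => P.xRep) ?_ ?_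
    · refine h2.subset ?_
      rintro _ ⟨P, hP, rfl⟩
      change Height.logHeight P.xRep ≤ B at hP
      cases P with
      | zero => exact Or.inr rfl
      | some x y h =>
        left
        refine ⟨x, ?_, rfl⟩
        change Height.logHeight₁ x ≤ B
        rw [Height.logHeight₁_eq_logHeight]
        exact hP
    · intro v _
      by_cases hv : ∃ P : W.toAffine.Point, P.xRep = v
      · obtain ⟨P, rfl⟩ := hv
        refine (Set.toFinite ({P, -P} : Set W.toAffine.Point)).subset ?_
        rintro Q ⟨_, hQ⟩
        have hQ' : Q.xRep = P.xRep := hQ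
        rcases WeierstrassCurve.Affine.Point.eq_or_eq_neg_of_xRep_eq_xRep hQ' with h | h
        · left
          exact h
        · right
          exact h
      · refine (Set.finite_empty).subset ?_
        rintro Q ⟨_, hQ⟩
        exact hv ⟨Q, hQ⟩
  refine AddCommGroup.fg_of_descent' (h := fun P : W.toAffine.Point => Height.logHeight P.xRep)
    (C := C) ?_ (fun P => Height.logHeight_nonneg _) hC
  exact AddSubgroup.finiteIndex_of_finite_quotient

open Classical in
theorem mwl_thm (haav : AAVStmt) (hpll : PLLStmt) (hdsc : DSCStmt) : MWLStmt := by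
  intro F _ _ h2 f hsep hfin
  obtain ⟨inst, hN⟩ := haav F
  have h2K : (2 : RatFunc F) ≠ 0 := by
    have h : (algebraMap F (RatFunc F)) 2 ≠ 0 := by
      rw [Ne, map_eq_zero]
      exact h2
    rwa [map_ofNat] at h
  obtain ⟨h3, h4⟩ := hdsc (RatFunc F) h2K (algebraMap F[X] (RatFunc F) f.1)
    (algebraMap F[X] (RatFunc F) f.2.1) (algebraMap F[X] (RatFunc F) f.2.2)
  have h5 : (E (algebraMap F[X] (RatFunc F) f.1) (algebraMap F[X] (RatFunc F) f.2.1)
      (algebraMap F[X] (RatFunc F) f.2.2)).Δ ≠ 0 := by
    rw [h4]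
    refine mul_ne_zero ?_ (h3.1 hsep)
    have h16 : (16 : RatFunc F) = 2 ^ 4 := by norm_num
    rw [h16]
    exact pow_ne_zero _ h2K
  have : (E (algebraMap F[X] (RatFunc F) f.1) (algebraMap F[X] (RatFunc F) f.2.1)
      (algebraMap F[X] (RatFunc F) f.2.2)).IsElliptic := ⟨isUnit_iff_ne_zero.2 h5⟩
  exact mwl_general _ (hpll (RatFunc F) _) hfin

end Pool.AVR
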