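import Pool.Agent.H14.AVR.Stmts

/-!
# AVR / SCL: scaling of the variable
-/

set_option autoImplicit false

namespace Pool.AVR

open Polynomial Matrix

theorem scl_cub_natDegree {K : Type} [Field K] (a b c : K) : (cub a b c).natDegree = 3 := by
  unfold cub
  compute_degree!

theorem scl_cub_monic {K : Type} [Field K] (a b c : K) : (cub a b c).Monic := by
  unfold cub
  monicity!

theorem scl_tau {K : Type} [Field K] (a b c a' b' c' l : K) (ha : a' = a * l) (hb : b' = b * l ^ 2)
    (hc : c' = c * l ^ 3) (p : K[X]) :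
    tau a b c (p.comp (C l * X)) = l ^ 2 * tau a' b' c' p := by
  have hcub : (cub a' b' c').comp (C l * X) = C (l ^ 3) * cub a b c := by
    subst ha hb hc
    simp only [cub, add_comp, mul_comp, pow_comp, X_comp, C_comp, C_mul, C_pow]
    ring
  have hp := modByMonic_add_div p (cub a' b' c')
  set r := p %ₘ cub a' b' c' with hr
  set q := p /ₘ cub a' b' c' with hq
  have hrdeg : r.degree < (cub a b c).degree := by
    have h1 := degree_modByMonic_lt p (scl_cub_monic a' b' c')
    have h2 : (cub a' b' c').degree = (cub a b c).degree := by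
      rw [degree_eq_natDegree (scl_cub_monic a' b' c').ne_zero,
        degree_eq_natDegree (scl_cub_monic a b c).ne_zero, scl_cub_natDegree, scl_cub_natDegree]
    rw [← h2]
    exact h1
  have hcomp : p.comp (C l * X) = r.comp (C l * X) + cub a b c * (C (l ^ 3) * q.comp (C l * X)) := by
    conv_lhs => rw [← hp]
    rw [add_comp, mul_comp, hcub]
    ring
  have hrc : (r.comp (C l * X)).degree < (cub a b c).degree := by
    refine lt_of_le_of_lt ?_ hrdeg
    rw [degree_le_iff_coeff_zero]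
    intro m hm
    rw [comp_C_mul_X_coeff, coeff_eq_zero_of_degree_lt hm, zero_mul]
  have hmod : p.comp (C l * X) %ₘ cub a b c = r.comp (C l * X) := by
    rw [hcomp, add_modByMonic, (modByMonic_eq_zero_iff_dvd (scl_cub_monic a b c)).2
      (dvd_mul_right _ _), add_zero, (modByMonic_eq_self_iff (scl_cub_monic a b c)).2 hrc]
  unfold tau
  rw [hmod, comp_C_mul_X_coeff, ← hr, mul_comm]

theorem scl_thm : SCLStmt := by
  intro K _ a b c x y t G B ht hy h
  obtain ⟨e, hG, hB⟩ := h
  have hl : (t ^ 2)⁻¹ ≠ 0 := inv_ne_zero (pow_ne_zero _ ht)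
  set l : K := (t ^ 2)⁻¹ with hldef
  have hlt : l * t ^ 2 = 1 := by
    rw [hldef]
    exact inv_mul_cancel₀ (pow_ne_zero _ ht)
  have ha : a / t ^ 2 = a * l := by rw [hldef, div_eq_mul_inv]
  have hb : b / t ^ 4 = b * l ^ 2 := by
    rw [hldef]
    field_simp
  have hc : c / t ^ 6 = c * l ^ 3 := by
    rw [hldef]
    field_simp
  have hhh : (hh (a / t ^ 2) (b / t ^ 4) (x / t ^ 2) (y / t ^ 3)).comp (C l * X) =
      C (t ^ 2) * hh a b x y := by
    have e1 : ((y / t ^ 3) ^ 2)⁻¹ * l ^ 2 = t ^ 2 * (y ^ 2)⁻¹ := by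
      rw [hldef]
      field_simp
    have e2 : x / t ^ 2 + a / t ^ 2 = l * (x + a) := by
      rw [hldef]
      field_simp
    have e3 : (x / t ^ 2) ^ 2 + a / t ^ 2 * (x / t ^ 2) + b / t ^ 4 =
        l ^ 2 * (x ^ 2 + a * x + b) := by
      rw [hldef]
      field_simp
    unfold hh
    rw [e2, e3]
    simp only [add_comp, mul_comp, pow_comp, X_comp, C_comp]
    have e4 : C ((y / t ^ 3) ^ 2)⁻¹ * ((C l * X) ^ 2 + C (l * (x + a)) * (C l * X) +
        C (l ^ 2 * (x ^ 2 + a * x + b))) =
        C (((y / t ^ 3) ^ 2)⁻¹ * l ^ 2) * (X ^ 2 + C (x + a) * X + C (x ^ 2 + a * x + b)) := by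
      simp only [C_mul, C_pow]
      ring
    rw [e4, e1, C_mul]
    ring
  have key : ∀ i j, (C (t ^ 3) * (e i).comp (C l * X)) * (C (t ^ 3) * (e j).comp (C l * X)) *
      hh a b x y = C (t ^ 4) *
        (e i * e j * hh (a / t ^ 2) (b / t ^ 4) (x / t ^ 2) (y / t ^ 3)).comp (C l * X) := by
    intro i j
    rw [mul_comp, mul_comp, hhh]
    have : (C (t ^ 3) : K[X]) * C (t ^ 3) = C (t ^ 4) * C (t ^ 2) := by
      rw [← C_mul, ← C_mul]
      congr 1
      ring
    calc C (t ^ 3) * (e i).comp (C l * X) * (C (t ^ 3) * (e j).comp (C l * X)) * hh a b x y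
        = (C (t ^ 3) * C (t ^ 3)) * ((e i).comp (C l * X) * (e j).comp (C l * X) * hh a b x y) := by
          ring
      _ = _ := by
          rw [this]
          ring
  have tauC : ∀ (s : K) (p : K[X]), tau a b c (C s * p) = s * tau a b c p := by
    intro s p
    unfold tau
    rw [← smul_eq_C_mul, smul_modByMonic, coeff_smul, smul_eq_mul]
  refine ⟨fun i => C (t ^ 3) * (e i).comp (C l * X), ?_, ?_⟩
  · intro i j
    show tau a b c ((C (t ^ 3) * (e i).comp (C l * X)) * (C (t ^ 3) * (e j).comp (C l * X)) *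
      hh a b x y) = G i j
    rw [key, tauC, scl_tau a b c _ _ _ l ha hb hc, hG, ← mul_assoc]
    have : t ^ 4 * l ^ 2 = 1 := by
      calc t ^ 4 * l ^ 2 = (l * t ^ 2) ^ 2 := by ring
        _ = 1 := by rw [hlt, one_pow]
    rw [this, one_mul]
  · intro i j
    show tau a b c (X * ((C (t ^ 3) * (e i).comp (C l * X)) * (C (t ^ 3) * (e j).comp (C l * X)) *
      hh a b x y)) = (t ^ 2 • B) i j
    rw [key]
    have hX : (X : K[X]) * (C (t ^ 4) *
        (e i * e j * hh (a / t ^ 2) (b / t ^ 4) (x / t ^ 2) (y / t ^ 3)).comp (C l * X)) =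
        C (t ^ 6) * (X * (e i * e j *
          hh (a / t ^ 2) (b / t ^ 4) (x / t ^ 2) (y / t ^ 3))).comp (C l * X) := by
      rw [mul_comp X, X_comp]
      have h6 : (C (t ^ 4) : K[X]) = C (t ^ 6) * C l := by
        rw [← C_mul]
        congr 1
        calc t ^ 4 = t ^ 4 * (l * t ^ 2) := by rw [hlt, mul_one]
          _ = t ^ 6 * l := by ring
      rw [h6]
      ring
    rw [hX, tauC, scl_tau a b c _ _ _ l ha hb hc, hB, ← mul_assoc, Matrix.smul_apply, smul_eq_mul]
    congr 1
    calc t ^ 6 * l ^ 2 = t ^ 2 * (l * t ^ 2) ^ 2 := by ring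
      _ = t ^ 2 := by rw [hlt, one_pow, mul_one]

end Pool.AVR
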