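import Pool.Agent.H14.AVR.Stmts3

/-!
# AVR / LDB: the matrices whose first entry is a nonunit and whose second entry is a unit
-/

set_option autoImplicit false

namespace Pool.AVR

open Polynomial Matrix

namespace LDB

variable {R : Type} [CommRing R]

theorem charpoly_AA_mul (B : Matrix (Fin 3) (Fin 3) R) (hB : Bᵀ = B) :
    (AA R * B).charpoly = cub (-(2 * B 0 2 + B 1 1))
      (2 * B 0 2 * B 1 1 + B 0 2 ^ 2 - 2 * B 1 2 * B 0 1 - B 2 2 * B 0 0)
      (B 0 0 * B 1 1 * B 2 2 - B 0 0 * B 1 2 ^ 2 - B 0 1 ^ 2 * B 2 2 +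
        2 * B 0 1 * B 1 2 * B 0 2 - B 0 2 ^ 2 * B 1 1) := by
  have h10 : B 1 0 = B 0 1 := by
    conv_lhs => rw [← hB]
    rfl
  have h20 : B 2 0 = B 0 2 := by
    conv_lhs => rw [← hB]
    rfl
  have h21 : B 2 1 = B 1 2 := by
    conv_lhs => rw [← hB]
    rfl
  have hC2 : (C (2 : R) : R[X]) = 2 := map_ofNat C 2
  rw [Matrix.charpoly, Matrix.det_fin_three]
  simp only [Matrix.charmatrix_apply, AA, Matrix.mul_apply, Fin.sum_univ_three, cub]
  simp [h10, h20, h21, hC2]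
  ring

theorem cub_inj {a b c a' b' c' : R} (h : cub a b c = cub a' b' c') :
    a = a' ∧ b = b' ∧ c = c' := by
  have h2 := congrArg (fun p => Polynomial.coeff p 2) h
  have h1 := congrArg (fun p => Polynomial.coeff p 1) h
  have h0 := congrArg (fun p => Polynomial.coeff p 0) h
  simp [cub, coeff_X, coeff_C, coeff_X_pow] at h2 h1 h0
  exact ⟨h2, h1, h0⟩

theorem fib_eqs {a b c : R} {B : Matrix (Fin 3) (Fin 3) R} (hB : B ∈ Fib a b c) :
    -(2 * B 0 2 + B 1 1) = a ∧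
      2 * B 0 2 * B 1 1 + B 0 2 ^ 2 - 2 * B 1 2 * B 0 1 - B 2 2 * B 0 0 = b ∧
      B 0 0 * B 1 1 * B 2 2 - B 0 0 * B 1 2 ^ 2 - B 0 1 ^ 2 * B 2 2 +
        2 * B 0 1 * B 1 2 * B 0 2 - B 0 2 ^ 2 * B 1 1 = c := by
  obtain ⟨h1, h2⟩ := hB
  rw [charpoly_AA_mul B h1] at h2
  exact cub_inj h2

theorem sym_ext {B B' : Matrix (Fin 3) (Fin 3) R} (hB : Bᵀ = B) (hB' : B'ᵀ = B')
    (h00 : B 0 0 = B' 0 0) (h01 : B 0 1 = B' 0 1) (h02 : B 0 2 = B' 0 2) (h11 : B 1 1 = B' 1 1)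
    (h12 : B 1 2 = B' 1 2) (h22 : B 2 2 = B' 2 2) : B = B' := by
  have e : ∀ i j, B j i = B i j := fun i j => by
    conv_lhs => rw [← hB]
    rfl
  have e' : ∀ i j, B' j i = B' i j := fun i j => by
    conv_lhs => rw [← hB']
    rfl
  ext i j
  fin_cases i <;> fin_cases j
  · exact h00
  · exact h01
  · exact h02
  · exact ((e 0 1).trans h01).trans (e' 0 1).symm
  · exact h11
  · exact h12
  · exact ((e 0 2).trans h02).trans (e' 0 2).symm
  · exact ((e 1 2).trans h12).trans (e' 1 2).symm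
  · exact h22

/-- The ideal `(ϖ)` and its quotient have the same size. -/
theorem card_ideal [Finite R] {ϖ : R} (h : Len2 R ϖ) :
    Nat.card (Ideal.span {ϖ}) = res ϖ := by
  have hker : LinearMap.ker (LinearMap.toSpanSingleton R R ϖ) = Ideal.span {ϖ} := by
    ext x
    rw [LinearMap.mem_ker, LinearMap.toSpanSingleton_apply, smul_eq_mul, Ideal.mem_span_singleton]
    constructor
    · intro hx
      exact h.ann x (by rw [mul_comm]; exact hx)
    · rintro ⟨y, rfl⟩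
      calc ϖ * y * ϖ = ϖ * ϖ * y := by ring
        _ = 0 := by rw [h.sq, zero_mul]
  have hrange : LinearMap.range (LinearMap.toSpanSingleton R R ϖ) = Ideal.span {ϖ} :=
    LinearMap.range_toSpanSingleton ϖ
  have e1 := Nat.card_congr (LinearMap.quotKerEquivRange
    (LinearMap.toSpanSingleton R R ϖ)).toEquiv
  rw [hrange, hker] at e1
  exact e1.symm

theorem card_ring [Finite R] {ϖ : R} (h : Len2 R ϖ) : Nat.card R = res ϖ ^ 2 := by
  have h1 := Submodule.card_eq_card_quotient_mul_card (Ideal.span {ϖ})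
  rw [card_ideal h] at h1
  rw [h1, pow_two]
  rfl

theorem not_isUnit_iff {ϖ : R} (h : Len2 R ϖ) (x : R) : ¬ IsUnit x ↔ ϖ ∣ x := by
  constructor
  · intro hx
    exact (h.unit x).resolve_left hx
  · intro hx hu
    exact h.nonunit (isUnit_of_dvd_unit hx hu)

theorem ncard_dvd [Finite R] {ϖ : R} (h : Len2 R ϖ) : {x : R | ϖ ∣ x}.ncard = res ϖ := by
  rw [← card_ideal h, ← Nat.card_coe_set_eq]
  refine Nat.card_congr (Equiv.subtypeEquivRight fun x => ?_)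
  exact Ideal.mem_span_singleton.symm

theorem ncard_unit [Finite R] {ϖ : R} (h : Len2 R ϖ) :
    {x : R | IsUnit x}.ncard = res ϖ ^ 2 - res ϖ := by
  have h1 : {x : R | IsUnit x} = {x : R | ϖ ∣ x}ᶜ := by
    ext x
    rw [Set.mem_compl_iff, Set.mem_setOf_eq, Set.mem_setOf_eq, ← not_isUnit_iff h, not_not]
  rw [h1, Set.ncard_compl, ncard_dvd h, card_ring h]

end LDB

open LDB in
theorem ldb_thm : LDBStmt := by
  intro R _ _ ϖ h h2 a b c
  have hinj : Set.InjOn (fun B : Matrix (Fin 3) (Fin 3) R => (B 0 0, B 0 1, B 0 2))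
      {B ∈ Fib a b c | ¬ IsUnit (B 0 0) ∧ IsUnit (B 0 1)} := by
    rintro B ⟨hB, hp, hq⟩ B' ⟨hB', hp', hq'⟩ he
    simp only [Prod.mk.injEq] at he
    obtain ⟨e00, e01, e02⟩ := he
    obtain ⟨f1, f2, f3⟩ := fib_eqs hB
    obtain ⟨g1, g2, g3⟩ := fib_eqs hB'
    rw [← e00, ← e01, ← e02] at g2 g3
    rw [← e02] at g1
    have e11 : B 1 1 = B' 1 1 := by linear_combination g1 - f1
    rw [← e11] at g2 g3
    obtain ⟨z, hz⟩ := (not_isUnit_iff h _).1 hp
    -- `2 q (u - u') = - p (w - w')`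
    have k1 : 2 * B 0 1 * (B 1 2 - B' 1 2) = -(B 0 0 * (B 2 2 - B' 2 2)) := by
      linear_combination g2 - f2
    obtain ⟨v, hv⟩ := h2.mul hq
    -- `ϖ (u - u') = 0`
    have k2 : ϖ * (B 1 2 - B' 1 2) = 0 := by
      have : (2 * B 0 1) * (ϖ * (B 1 2 - B' 1 2)) = 0 := by
        calc (2 * B 0 1) * (ϖ * (B 1 2 - B' 1 2)) = ϖ * (2 * B 0 1 * (B 1 2 - B' 1 2)) := by ring
          _ = -(ϖ * ϖ * z * (B 2 2 - B' 2 2)) := by rw [k1, hz]; ring
          _ = 0 := by rw [h.sq]; ring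
      rw [← hv] at this
      exact (Units.mul_right_eq_zero v).1 this
    have k3 : B 0 0 * (B 1 2 - B' 1 2) = 0 := by
      rw [hz]
      calc ϖ * z * (B 1 2 - B' 1 2) = z * (ϖ * (B 1 2 - B' 1 2)) := by ring
        _ = 0 := by rw [k2, mul_zero]
    have k4 : (B 0 1 ^ 2 - B 0 0 * (B 1 1 - B 0 2)) * (B 2 2 - B' 2 2) = 0 := by
      linear_combination -f3 + g3 + B 0 2 * k1 - (B 1 2 + B' 1 2) * k3
    have k5 : IsUnit (B 0 1 ^ 2 - B 0 0 * (B 1 1 - B 0 2)) := by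
      by_contra hcon
      obtain ⟨y, hy⟩ := (not_isUnit_iff h _).1 hcon
      have : ϖ ∣ B 0 1 ^ 2 := ⟨y + z * (B 1 1 - B 0 2), by
        have e : B 0 1 ^ 2 = ϖ * y + B 0 0 * (B 1 1 - B 0 2) := by linear_combination hy
        rw [e, hz]
        ring⟩
      exact (not_isUnit_iff h _).2 this (hq.pow 2)
    obtain ⟨v', hv'⟩ := k5
    rw [← hv'] at k4
    have k6 : B 2 2 - B' 2 2 = 0 := (Units.mul_right_eq_zero v').1 k4
    rw [k6, mul_zero, neg_zero, ← hv] at k1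
    have k7 : B 1 2 - B' 1 2 = 0 := (Units.mul_right_eq_zero v).1 k1
    exact sym_ext hB.1 hB'.1 e00 e01 e02 e11 (sub_eq_zero.1 k7) (sub_eq_zero.1 k6)
  have hmaps : ∀ B ∈ {B ∈ Fib a b c | ¬ IsUnit (B 0 0) ∧ IsUnit (B 0 1)},
      (fun B : Matrix (Fin 3) (Fin 3) R => (B 0 0, B 0 1, B 0 2)) B ∈
        {x : R | ϖ ∣ x} ×ˢ ({x : R | IsUnit x} ×ˢ (Set.univ : Set R)) := by
    rintro B ⟨hB, hp, hq⟩
    exact ⟨(not_isUnit_iff h _).1 hp, hq, Set.mem_univ _⟩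
  refine (Set.ncard_le_ncard_of_injOn _ hmaps hinj (Set.toFinite _)).trans ?_
  rw [Set.ncard_prod, Set.ncard_prod, ncard_dvd h, ncard_unit h, Set.ncard_univ, card_ring h]
  have e : res ϖ ^ 2 - res ϖ = res ϖ * (res ϖ - 1) := by
    rw [Nat.mul_sub, mul_one, pow_two]
  rw [e]
  apply le_of_eq
  ring

end Pool.AVR
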